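import Mathlib
import Pool.Agent.Lib.PolyTime.Typed
import Pool.Agent.Lib.PolyTime.Nat
import Pool.Agent.Lib.PolyTime.Final

/-!
# The existential theory of the reals and the minimum rank problem: definitions

* `Term`, `Formula`: terms (variables, integer constants, sums, products) and quantifier-free
  formulas (Boolean combinations of `s = t` and `s < t`).
* `ETR`: the formulas whose existential closure is true in the reals.
* `Mat`: square matrices whose entries are rational numbers or variables.
* `MinRank r`: the matrices for which some real assignment to the variables gives rank at most `r`.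
* `Reduces A B`: there is a many-one reduction of `A` to `B` computable in polynomial time by a
  Turing machine (Mathlib's `Turing.TM2ComputableInPolyTime`).

Encodings: formulas are written in reverse Polish form as lists of tokens, matrices as lists of
rows; natural numbers are written in binary, an integer as its sign and absolute value, a rational
as numerator and denominator.
-/

set_option autoImplicit false

namespace Pool.Agent.MinRank

open Pool.Agent.PolyTime

/-! ### The existential theory of the reals -/

/-- Terms: variables, integer constants, sums and products. -/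
inductive Term : Type
  | var (v : ℕ) : Term
  | const (c : ℤ) : Term
  | add (s t : Term) : Term
  | mul (s t : Term) : Term

/-- value of a term at the point `y` -/
def Term.eval (y : ℕ → ℝ) : Term → ℝ
  | .var v => y v
  | .const c => (c : ℝ)
  | .add s t => s.eval y + t.eval y
  | .mul s t => s.eval y * t.eval y

/-- Quantifier-free formulas: Boolean combinations of equations and inequalities of terms. -/
inductive Formula : Type
  | eq (s t : Term) : Formula
  | lt (s t : Term) : Formula
  | not (φ : Formula) : Formula
  | and (φ ψ : Formula) : Formula
  | or (φ ψ : Formula) : Formula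

/-- the formula holds at the point `y` -/
def Formula.Holds (y : ℕ → ℝ) : Formula → Prop
  | .eq s t => s.eval y = t.eval y
  | .lt s t => s.eval y < t.eval y
  | .not φ => ¬ φ.Holds y
  | .and φ ψ => φ.Holds y ∧ ψ.Holds y
  | .or φ ψ => φ.Holds y ∨ ψ.Holds y

/-- The existential theory of the reals: the formulas whose existential closure is true. -/
def ETR : Set Formula := {φ | ∃ y : ℕ → ℝ, φ.Holds y}

/-! ### The minimum rank problem -/

/-- Square matrices whose entries are rational numbers (`Sum.inl q`) or variables (`Sum.inr v`). -/
structure Mat : Type where
  /-- the number of rows and columns -/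
  n : ℕ
  /-- the entries -/
  entry : Fin n → Fin n → ℚ ⊕ ℕ

/-- value of an entry, the variables taking the values given by `x` -/
noncomputable def evalEntry (x : ℕ → ℝ) : ℚ ⊕ ℕ → ℝ
  | Sum.inl q => (q : ℝ)
  | Sum.inr v => x v

/-- the real matrix obtained by giving the variables the values `x` -/
noncomputable def Mat.eval (M : Mat) (x : ℕ → ℝ) : Matrix (Fin M.n) (Fin M.n) ℝ :=
  Matrix.of fun i j => evalEntry x (M.entry i j)

/-- `MinRank r`: some real assignment to the variables gives a matrix of rank at most `r`. -/
def MinRank (r : ℕ) : Set Mat := {M | ∃ x : ℕ → ℝ, (M.eval x).rank ≤ r}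

/-! ### Encodings -/

/-- an integer is encoded by its sign and its absolute value (in binary) -/
instance : Enc ℤ := ⟨fun z => enc (decide (z < 0), z.natAbs)⟩

/-- a rational number is encoded by its numerator and its denominator -/
instance : Enc ℚ := ⟨fun q => enc (q.num, q.den)⟩

/-- the symbols of the reverse Polish form of formulas -/
inductive Token : Type
  | var (v : ℕ) : Token
  | const (c : ℤ) : Token
  | add : Token
  | mul : Token
  | eq : Token
  | lt : Token
  | not : Token
  | and : Token
  | or : Token

/-- a token as an element of a sum type: variable, constant or the number of an operation -/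
def Token.toSum : Token → ℕ ⊕ ℤ ⊕ ℕ
  | .var v => Sum.inl v
  | .const c => Sum.inr (Sum.inl c)
  | .add => Sum.inr (Sum.inr 0)
  | .mul => Sum.inr (Sum.inr 1)
  | .eq => Sum.inr (Sum.inr 2)
  | .lt => Sum.inr (Sum.inr 3)
  | .not => Sum.inr (Sum.inr 4)
  | .and => Sum.inr (Sum.inr 5)
  | .or => Sum.inr (Sum.inr 6)

instance : Enc Token := ⟨fun t => enc t.toSum⟩

/-- reverse Polish form of a term -/
def Term.rpn : Term → List Token
  | .var v => [Token.var v]
  | .const c => [Token.const c]
  | .add s t => s.rpn ++ t.rpn ++ [Token.add]
  | .mul s t => s.rpn ++ t.rpn ++ [Token.mul]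

/-- reverse Polish form of a formula -/
def Formula.rpn : Formula → List Token
  | .eq s t => s.rpn ++ t.rpn ++ [Token.eq]
  | .lt s t => s.rpn ++ t.rpn ++ [Token.lt]
  | .not φ => φ.rpn ++ [Token.not]
  | .and φ ψ => φ.rpn ++ ψ.rpn ++ [Token.and]
  | .or φ ψ => φ.rpn ++ ψ.rpn ++ [Token.or]

/-- a formula is encoded by its reverse Polish form -/
instance : Enc Formula := ⟨fun φ => enc φ.rpn⟩

/-- the rows of a matrix -/
def Mat.rows (M : Mat) : List (List (ℚ ⊕ ℕ)) :=
  List.ofFn fun i => List.ofFn fun j => M.entry i j

/-- a matrix is encoded by the list of its rows -/
instance : Enc Mat := ⟨fun M => enc M.rows⟩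

/-- the bit string which encodes an element of an encoded type -/
def bitString {α : Type} [Enc α] (a : α) : List Bool := code (enc a)

/-! ### Reductions -/

/-- `A` reduces to `B` by a many-one reduction computable in polynomial time. -/
def Reduces {α β : Type} [Enc α] [Enc β] (A : Set α) (B : Set β) : Prop :=
  ∃ f : α → β, Nonempty (Turing.TM2ComputableInPolyTime (bitString (α := α))
    (bitString (α := β)) f) ∧ ∀ a, a ∈ A ↔ f a ∈ B

/-- `B` is hard for the existential theory of the reals. -/
def ERHard {β : Type} [Enc β] (B : Set β) : Prop := Reduces ETR B

end Pool.Agent.MinRank
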