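import Pool.Agent.MinRank.Blocks

/-!
# From systems of blocks to one matrix

The blocks are padded with an identity matrix and put on the diagonal of a large matrix; the
other entries of this matrix are variables, each of which occurs only once.
-/

set_option autoImplicit false

namespace Pool.Agent.MinRank

open Pool.Agent.PolyTime

/-- entries of a block padded with an identity matrix -/
def padEntry (B : Block) (i j : ℕ) : ℚ ⊕ ℕ :=
  if i < 3 ∧ j < 3 then B.getD (3 * i + j) (cst 0) else if i = j then cst 1 else cst 0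

/-- padded block -/
noncomputable def padMat (s : ℕ) (z : ℕ → ℝ) (B : Block) : Matrix (Fin (s + 3)) (Fin (s + 3)) ℝ :=
  Matrix.of fun i j => evalEntry z (padEntry B i.1 j.1)

/-- splitting of the indices -/
def splitEquiv (s : ℕ) : Fin 3 ⊕ Fin s ≃ Fin (s + 3) := finSumFinEquiv.trans (finCongr (add_comm _ _))

lemma padMat_submatrix (s : ℕ) (z : ℕ → ℝ) (B : Block) :
    (padMat s z B).submatrix (splitEquiv s) (splitEquiv s) =
      Matrix.fromBlocks (blockMat z B) 0 0 1 := by
  ext i j
  rcases i with i | i <;> rcases j with j | j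
  · simp [padMat, padEntry, splitEquiv, blockMat]
  · have : (i : ℕ) ≠ j + 3 := by omega
    simp [padMat, padEntry, splitEquiv, evalEntry, cst, this]
  · have : (i : ℕ) + 3 ≠ j := by omega
    simp [padMat, padEntry, splitEquiv, evalEntry, cst, this]
  · by_cases h : i = j
    · simp [padMat, padEntry, splitEquiv, evalEntry, cst, h]
    · have : (i : ℕ) ≠ j := fun h' => h (Fin.ext h')
      simp [padMat, padEntry, splitEquiv, evalEntry, cst, h, this]

lemma det_padMat (s : ℕ) (z : ℕ → ℝ) (B : Block) : (padMat s z B).det = (blockMat z B).det := by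
  rw [← Matrix.det_submatrix_equiv_self (splitEquiv s), padMat_submatrix,
    Matrix.det_fromBlocks_zero₂₁, Matrix.det_one, mul_one]

lemma padMat_congr (s : ℕ) {z z' : ℕ → ℝ} {B : Block} (h : blockMat z B = blockMat z' B) :
    padMat s z B = padMat s z' B := by
  have h1 := padMat_submatrix s z B
  rw [h, ← padMat_submatrix] at h1
  ext i j
  have := congrFun (congrFun h1 ((splitEquiv s).symm i)) ((splitEquiv s).symm j)
  simpa using this

/-- a singular matrix factors through a space of smaller dimension -/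
lemma exists_factor {n : ℕ} (M : Matrix (Fin (n + 1)) (Fin (n + 1)) ℝ) (h : M.det = 0) :
    ∃ (U : Matrix (Fin (n + 1)) (Fin n) ℝ) (V : Matrix (Fin n) (Fin (n + 1)) ℝ), M = U * V := by
  obtain ⟨v, hv, hM⟩ := Matrix.exists_vecMul_eq_zero_iff.2 h
  obtain ⟨k, hk⟩ : ∃ k, v k ≠ 0 := by
    by_contra h'
    push Not at h'
    exact hv (funext h')
  refine ⟨Matrix.of fun i l => if i = k then - v (k.succAbove l) / v k else
    if i = k.succAbove l then 1 else 0, Matrix.of fun l j => M (k.succAbove l) j, ?_⟩
  ext i j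
  rw [Matrix.mul_apply]
  simp only [Matrix.of_apply]
  by_cases hi : i = k
  · subst hi
    simp only [if_true]
    have h1 : ∑ i', v i' * M i' j = 0 := by
      have := congrFun hM j
      simpa [Matrix.vecMul, dotProduct] using this
    rw [Fin.sum_univ_succAbove _ i] at h1
    have h2 : M i j = - (∑ l, v (i.succAbove l) * M (i.succAbove l) j) / v i := by
      field_simp
      linarith
    rw [h2, ← Finset.sum_neg_distrib, Finset.sum_div]
    refine Finset.sum_congr rfl fun l _ => ?_
    ring
  · obtain ⟨l, rfl⟩ := Fin.exists_succAbove_eq hi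
    simp only [hi, if_false, Fin.succAbove_right_injective.eq_iff]
    simp

/-- entries of the large matrix with `n` rows, made of blocks with `R` rows -/
def bigEntry (R n : ℕ) (L : List Block) (i j : ℕ) : ℚ ⊕ ℕ :=
  if i / R = j / R then padEntry (L.getD (i / R) []) (i % R) (j % R)
  else Sum.inr (2 * (i * n + j) + 1)

/-- the large matrix -/
def bigMat (R : ℕ) (L : List Block) : Mat :=
  ⟨R * L.length, fun i j => bigEntry R (R * L.length) L i.1 j.1⟩

theorem sat_of_minRank (s : ℕ) (L : List Block) (h : bigMat (s + 3) L ∈ MinRank (s + 2)) :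
    ∃ x, Sat x L := by
  obtain ⟨z, hz⟩ := h
  refine ⟨fun v => z (2 * v), z, fun v => rfl, fun B hB => ?_⟩
  obtain ⟨b, hb, rfl⟩ := List.getElem_of_mem hB
  have hlt : ∀ i : Fin (s + 3), b * (s + 3) + i.1 < (s + 3) * L.length := by
    intro i
    calc b * (s + 3) + i.1 < b * (s + 3) + (s + 3) := by omega
      _ = (s + 3) * (b + 1) := by ring
      _ ≤ (s + 3) * L.length := Nat.mul_le_mul_left _ hb
  let f : Fin (s + 3) → Fin (bigMat (s + 3) L).n := fun i => ⟨b * (s + 3) + i.1, hlt i⟩
  have e : padMat s z L[b] = ((bigMat (s + 3) L).eval z).submatrix f f := by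
    ext i j
    have h1 : ∀ i : Fin (s + 3), (b * (s + 3) + i.1) / (s + 3) = b := by
      intro i
      rw [mul_comm, Nat.mul_add_div (by omega), Nat.div_eq_of_lt i.2, add_zero]
    have h2 : ∀ i : Fin (s + 3), (b * (s + 3) + i.1) % (s + 3) = i.1 := by
      intro i
      rw [mul_comm, Nat.mul_add_mod, Nat.mod_eq_of_lt i.2]
    have h3 : L.getD b [] = L[b] := by simp [hb]
    show _ = evalEntry z (bigEntry (s + 3) _ L (b * (s + 3) + i.1) (b * (s + 3) + j.1))
    unfold bigEntry
    rw [h1, h1, h2, h2, if_pos rfl, h3]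
    rfl
  rw [← det_padMat s]
  by_contra hne
  have h1 := Matrix.rank_of_det_ne_zero hne
  rw [Fintype.card_fin] at h1
  have h2 : (padMat s z L[b]).rank ≤ s + 2 := by
    rw [e]
    exact (Matrix.rank_submatrix_le _ _ _).trans hz
  omega

theorem minRank_of_holds (s : ℕ) (L : List Block) (x : ℕ → ℝ) (h : Holds x L) :
    bigMat (s + 3) L ∈ MinRank (s + 2) := by
  classical
  set z₀ : ℕ → ℝ := fun v => x (v / 2) with hz₀
  have hx0 : ∀ v, z₀ (2 * v) = x v := fun v => by
    show x (2 * v / 2) = x v
    rw [Nat.mul_div_cancel_left _ (by norm_num)]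
  have hfac : ∀ b : ℕ, ∃ (U : Matrix (Fin (s + 3)) (Fin (s + 2)) ℝ)
      (V : Matrix (Fin (s + 2)) (Fin (s + 3)) ℝ), b < L.length →
      padMat s z₀ (L.getD b []) = U * V := by
    intro b
    by_cases hb : b < L.length
    · have h3 : L.getD b [] = L[b] := by simp [hb]
      obtain ⟨U, V, hUV⟩ := exists_factor (padMat s z₀ L[b])
        (by rw [det_padMat]; exact (h _ (List.getElem_mem hb)).2 _ hx0)
      exact ⟨U, V, fun _ => by rw [h3]; exact hUV⟩
    · exact ⟨0, 0, fun h => absurd h hb⟩
  choose U V hUV using hfac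
  set N := (s + 3) * L.length with hN
  have hR : 0 < s + 3 := by omega
  let u : ℕ → Fin (s + 2) → ℝ := fun i => U (i / (s + 3)) ⟨i % (s + 3), Nat.mod_lt _ hR⟩
  let w : Fin (s + 2) → ℕ → ℝ := fun l j => V (j / (s + 3)) l ⟨j % (s + 3), Nat.mod_lt _ hR⟩
  let z : ℕ → ℝ := fun v => if v % 2 = 0 then x (v / 2) else
    ∑ l, u ((v - 1) / 2 / N) l * w l ((v - 1) / 2 % N)
  have hz : ∀ v, z (2 * v) = x v := fun v => by
    show (if 2 * v % 2 = 0 then x (2 * v / 2) else _) = x v
    rw [if_pos (by omega), Nat.mul_div_cancel_left _ (by norm_num)]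
  refine ⟨z, ?_⟩
  have e : (Matrix.of fun (i j : Fin N) => evalEntry z (bigEntry (s + 3) N L i.1 j.1)) =
      (Matrix.of fun (i : Fin N) l => u i.1 l) * (Matrix.of fun l (j : Fin N) => w l j.1) := by
    ext i j
    have hi : i.1 < N := i.2
    have hj : j.1 < N := j.2
    rw [Matrix.mul_apply]
    simp only [Matrix.of_apply]
    unfold bigEntry
    by_cases hij : i.1 / (s + 3) = j.1 / (s + 3)
    · rw [if_pos hij]
      set b := i.1 / (s + 3) with hb
      have hbL : b < L.length := by
        rw [hb, Nat.div_lt_iff_lt_mul hR, mul_comm]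
        exact hi
      have h3 : L.getD b [] = L[b] := by simp [hbL]
      have h4 : padMat s z (L.getD b []) = U b * V b := by
        rw [← hUV b hbL]
        refine padMat_congr s ?_
        rw [h3]
        exact (h _ (List.getElem_mem hbL)).1 _ _ fun v => by rw [hz, hx0]
      have h5 := congrFun (congrFun h4 ⟨i.1 % (s + 3), Nat.mod_lt _ hR⟩)
        ⟨j.1 % (s + 3), Nat.mod_lt _ hR⟩
      rw [Matrix.mul_apply] at h5
      refine Eq.trans h5 (Finset.sum_congr rfl fun l _ => ?_)
      show _ = U (i.1 / (s + 3)) _ l * V (j.1 / (s + 3)) l _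
      rw [← hij]
    · rw [if_neg hij]
      show z (2 * (i.1 * N + j.1) + 1) = _
      have h6 : (2 * (i.1 * N + j.1) + 1) % 2 ≠ 0 := by omega
      have h7 : (2 * (i.1 * N + j.1) + 1 - 1) / 2 = i.1 * N + j.1 := by omega
      have h8 : (i.1 * N + j.1) / N = i.1 := by
        rw [mul_comm, Nat.mul_add_div (by omega), Nat.div_eq_of_lt hj, add_zero]
      have h9 : (i.1 * N + j.1) % N = j.1 := by
        rw [mul_comm, Nat.mul_add_mod, Nat.mod_eq_of_lt hj]
      show (if (2 * (i.1 * N + j.1) + 1) % 2 = 0 then _ else _) = _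
      rw [if_neg h6, h7, h8, h9]
  show (Matrix.of fun (i j : Fin N) => evalEntry z (bigEntry (s + 3) N L i.1 j.1)).rank ≤ s + 2
  rw [e]
  refine (Matrix.rank_mul_le_left _ _).trans ((Matrix.rank_le_card_width _).trans ?_)
  rw [Fintype.card_fin]

end Pool.Agent.MinRank
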