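import Pool.Agent.MinRank.Compile
import Pool.Agent.MinRank.Rank
import Pool.Agent.Lib.PolyTime.Subsets

/-!
# The reduction is computable in polynomial time
-/

set_option autoImplicit false

namespace Pool.Agent.MinRank

open Pool.Agent.PolyTime

variable {α : Type} [Enc α]

/-! ### encodings -/

lemma PT_toSum {f : α → Token} (hf : PT f) : PT fun a => (f a).toSum := hf

lemma PT_rpn {f : α → Formula} (hf : PT f) : PT fun a => (f a).rpn := hf

lemma enc_intCast (c : ℤ) : enc ((c : ℤ) : ℚ) = enc (c, 1) := by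
  show enc (((c : ℤ) : ℚ).num, ((c : ℤ) : ℚ).den) = _
  rw [Rat.num_intCast, Rat.den_intCast]

@[fun_prop] lemma PT_intCast {f : α → ℤ} (hf : PT f) : PT fun a => ((f a : ℤ) : ℚ) := by
  have h : PT fun a => (f a, 1) := PT.pair hf (PT.const 1)
  unfold PT at h ⊢
  simpa only [enc_intCast] using h

@[fun_prop] lemma PT_vr {f : α → ℕ} (hf : PT f) : PT fun a => vr (f a) := by
  unfold vr
  fun_prop

@[fun_prop] lemma PT_cst {f : α → ℚ} (hf : PT f) : PT fun a => cst (f a) := by
  unfold cst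
  fun_prop

@[fun_prop] lemma PT_g {f : α → ℕ} (hf : PT f) : PT fun a => g (f a) := by
  unfold g
  fun_prop

@[fun_prop] lemma PT_bAdd {f f' f'' : α → ℕ} (hf : PT f) (hf' : PT f') (hf'' : PT f'') :
    PT fun a => bAdd (f a) (f' a) (f'' a) := by
  unfold bAdd
  fun_prop

@[fun_prop] lemma PT_bMul {f f' f'' : α → ℕ} (hf : PT f) (hf' : PT f') (hf'' : PT f'') :
    PT fun a => bMul (f a) (f' a) (f'' a) := by
  unfold bMul
  fun_prop

@[fun_prop] lemma PT_bConst {f : α → ℕ} {f' : α → ℤ} (hf : PT f) (hf' : PT f') :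
    PT fun a => bConst (f a) (f' a) := by
  unfold bConst
  fun_prop

/-! ### the operations -/

/-- polynomial time operations -/
def OpPT (op : Op) : Prop := PT fun q : ℕ × (ℕ × ℕ) × (ℕ × ℕ) => op q.1 q.2.1 q.2.2

lemma opPT_add : OpPT opAdd := by unfold OpPT opAdd; fun_prop
lemma opPT_mul : OpPT opMul := by unfold OpPT opMul; fun_prop
lemma opPT_eq : OpPT opEq := by unfold OpPT opEq; fun_prop
lemma opPT_lt : OpPT opLt := by unfold OpPT opLt; fun_prop
lemma opPT_and : OpPT opAnd := by unfold OpPT opAnd; fun_prop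
lemma opPT_or : OpPT opOr := by unfold OpPT opOr; fun_prop

lemma PT_bin {op : Op} (h : OpPT op) {s : α → State} (hs : PT s) : PT fun a => bin op (s a) := by
  have h0 : PT fun s : State => bin op s := by
    refine (PT.listCases (l := fun s : State => s.2.1) (f := fun s => s)
      (g := fun s b l => match l with
        | [] => s
        | a :: st => (s.1 + 9, (op s.1 a b).1 :: st, (op s.1 a b).2 ++ s.2.2))
      (by fun_prop) (by fun_prop) ?_).congr (by
        rintro ⟨k, st, L⟩
        unfold bin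
        rcases st with _ | ⟨a, _ | ⟨b, st⟩⟩ <;> rfl)
    refine (PT.listCases (l := fun p : State × (ℕ × ℕ) × List (ℕ × ℕ) => p.2.2) (f := fun p => p.1)
      (g := fun p a st => (p.1.1 + 9, (op p.1.1 a p.2.1).1 :: st, (op p.1.1 a p.2.1).2 ++ p.1.2.2))
      (by fun_prop) (by fun_prop) ?_).congr (by
        rintro ⟨s, b, l⟩
        rcases l with _ | ⟨a, st⟩ <;> rfl)
    have h1 : PT fun q : (State × (ℕ × ℕ) × List (ℕ × ℕ)) × (ℕ × ℕ) × List (ℕ × ℕ) =>
        op q.1.1.1 q.2.1 q.1.2.1 :=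
      h.comp (f := fun q : (State × (ℕ × ℕ) × List (ℕ × ℕ)) × (ℕ × ℕ) × List (ℕ × ℕ) =>
        (q.1.1.1, q.2.1, q.1.2.1)) (by fun_prop)
    exact PT.pair (by fun_prop) (PT.pair (PT.cons (PT.fst h1) (by fun_prop))
      (PT.append (PT.snd h1) (by fun_prop)))
  exact h0.comp hs

lemma PT_neg {s : α → State} (hs : PT s) : PT fun a => neg (s a) := by
  have h0 : PT fun s : State => neg s := by
    refine (PT.listCases (l := fun s : State => s.2.1) (f := fun s => s)
      (g := fun s a st => (s.1, (a.2, a.1) :: st, s.2.2)) (by fun_prop) (by fun_prop) ?_).congr (by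
        rintro ⟨k, st, L⟩
        unfold neg
        rcases st with _ | ⟨a, st⟩ <;> rfl)
    fun_prop
  exact h0.comp hs

lemma PT_opStep : PT fun p : State × ℕ => opStep p.1 p.2 := by
  unfold opStep
  have hd : ∀ k : ℕ, PT fun p : State × ℕ => decide (p.2 = k) := fun k =>
    PT.decide_eq (by fun_prop) (PT.const k)
  exact PT.ite (hd 0) (PT_bin opPT_add (by fun_prop)) <|
    PT.ite (hd 1) (PT_bin opPT_mul (by fun_prop)) <|
    PT.ite (hd 2) (PT_bin opPT_eq (by fun_prop)) <|
    PT.ite (hd 3) (PT_bin opPT_lt (by fun_prop)) <|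
    PT.ite (hd 4) (PT_neg (by fun_prop)) <|
    PT.ite (hd 5) (PT_bin opPT_and (by fun_prop)) (PT_bin opPT_or (by fun_prop))

lemma PT_step : PT fun p : State × (ℕ ⊕ ℤ ⊕ ℕ) => step p.1 p.2 := by
  refine (PT.sumCases (o := fun p : State × (ℕ ⊕ ℤ ⊕ ℕ) => p.2)
    (f := fun p v => (p.1.1, (2 * v, 2 * v) :: p.1.2.1, p.1.2.2))
    (g := fun p t => match t with
      | Sum.inl c => (p.1.1 + 9, (g p.1.1, g p.1.1) :: p.1.2.1, bConst (g p.1.1) c :: p.1.2.2)
      | Sum.inr o => opStep p.1 o) (by fun_prop) (by fun_prop) ?_).congr (by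
        rintro ⟨s, t⟩
        unfold step
        rcases t with v | c | o <;> rfl)
  refine (PT.sumCases (o := fun p : (State × (ℕ ⊕ ℤ ⊕ ℕ)) × (ℤ ⊕ ℕ) => p.2)
    (f := fun p c => (p.1.1.1 + 9, (g p.1.1.1, g p.1.1.1) :: p.1.1.2.1,
      bConst (g p.1.1.1) c :: p.1.1.2.2))
    (g := fun p o => opStep p.1.1 o) (by fun_prop) (by fun_prop) ?_).congr (by
        rintro ⟨s, t⟩
        rcases t with c | o <;> rfl)
  exact PT_opStep.comp (f := fun p : ((State × (ℕ ⊕ ℤ ⊕ ℕ)) × (ℤ ⊕ ℕ)) × ℕ => (p.1.1.1, p.2))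
    (by fun_prop)

/-! ### sizes -/

/-- small blocks -/
def Small (E : ℕ) (B : Block) : Prop := B.length ≤ 9 ∧ ∀ e ∈ B, sz e ≤ E

lemma Small.mono {E E' : ℕ} {B : Block} (h : Small E B) (hE : E ≤ E') : Small E' B :=
  ⟨h.1, fun e he => (h.2 e he).trans hE⟩

lemma Small.size {E : ℕ} {B : Block} (h : Small E B) : sz B ≤ 9 * (E + 1) + 1 := by
  refine (sz_list_le h.2).trans ?_
  have := h.1
  gcongr

lemma sz_two_mul (v : ℕ) : sz (2 * v) ≤ 4 * sz v + 5 := by
  have h1 := sz_nat_le (2 * v)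
  have h2 := size_mul_le 2 v
  have h3 := size_lt_sz v
  have h4 : Nat.size 2 = 2 := by decide
  omega

lemma sz_vr (v : ℕ) : sz (vr v) ≤ 4 * sz v + 9 := by
  unfold vr
  rw [sz_inr]
  have := sz_two_mul v
  omega

lemma sz_int0 : sz (0 : ℤ) ≤ 3 := by
  show sz (decide ((0 : ℤ) < 0), (0 : ℤ).natAbs) ≤ 3
  simp [sz_nat]

lemma sz_int1 : sz (1 : ℤ) ≤ 8 := by
  show sz (decide ((1 : ℤ) < 0), (1 : ℤ).natAbs) ≤ 8
  simp [sz_nat]

lemma sz_intCast (c : ℤ) : sz ((c : ℤ) : ℚ) ≤ sz c + 6 := by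
  have h : sz ((c : ℤ) : ℚ) = sz (c, 1) := by
    unfold sz
    rw [enc_intCast]
  rw [h, sz_pair]
  simp [sz_nat]

lemma sz_cst_int (c : ℤ) : sz (cst (c : ℚ)) ≤ sz c + 8 := by
  unfold cst
  rw [sz_inl]
  have := sz_intCast c
  omega

lemma sz_cst_zero : sz (cst 0) ≤ 11 := by
  have := sz_cst_int 0
  have := sz_int0
  simp only [Int.cast_zero] at *
  omega

lemma sz_cst_one : sz (cst 1) ≤ 16 := by
  have := sz_cst_int 1
  have := sz_int1
  simp only [Int.cast_one] at *
  omega

lemma small_bAdd {a b c M : ℕ} (ha : sz a ≤ M) (hb : sz b ≤ M) (hc : sz c ≤ M) :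
    Small (4 * M + 16) (bAdd a b c) := by
  refine ⟨by simp [bAdd], fun e he => ?_⟩
  have h0 := sz_cst_zero
  have h1 := sz_cst_one
  have h2 := sz_vr a
  have h3 := sz_vr b
  have h4 := sz_vr c
  simp only [bAdd, List.mem_cons, List.not_mem_nil, or_false] at he
  rcases he with rfl | rfl | rfl | rfl | rfl | rfl | rfl | rfl | rfl <;> omega

lemma small_bMul {a b c M : ℕ} (ha : sz a ≤ M) (hb : sz b ≤ M) (hc : sz c ≤ M) :
    Small (4 * M + 16) (bMul a b c) := by
  refine ⟨by simp [bMul], fun e he => ?_⟩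
  have h0 := sz_cst_zero
  have h1 := sz_cst_one
  have h2 := sz_vr a
  have h3 := sz_vr b
  have h4 := sz_vr c
  simp only [bMul, List.mem_cons, List.not_mem_nil, or_false] at he
  rcases he with rfl | rfl | rfl | rfl | rfl | rfl | rfl | rfl | rfl <;> omega

lemma small_bConst {a M : ℕ} {q : ℤ} (ha : sz a ≤ M) (hq : sz q ≤ M) :
    Small (4 * M + 16) (bConst a q) := by
  refine ⟨by simp [bConst], fun e he => ?_⟩
  have h0 := sz_cst_zero
  have h1 := sz_cst_one
  have h2 := sz_vr a
  have h3 := sz_cst_int q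
  simp only [bConst, List.mem_cons, List.not_mem_nil, or_false] at he
  rcases he with rfl | rfl | rfl | rfl | rfl | rfl | rfl | rfl | rfl <;> omega

/-- operations with small results -/
def OpOK (op : Op) : Prop := ∀ (k : ℕ) (a b : ℕ × ℕ) (M : ℕ), 8 ≤ M → (∀ j < 9, sz (g (k + j)) ≤ M) →
  sz a.1 ≤ M → sz a.2 ≤ M → sz b.1 ≤ M → sz b.2 ≤ M →
  sz (op k a b).1.1 ≤ M ∧ sz (op k a b).1.2 ≤ M ∧ (op k a b).2.length ≤ 9 ∧
  ∀ B ∈ (op k a b).2, Small (4 * M + 16) B

lemma opOK_add : OpOK opAdd := by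
  intro k a b M hM hg ha ha' hb hb'
  have g0 : sz (g k) ≤ M := hg 0 (by norm_num)
  refine ⟨g0, g0, by simp [opAdd], fun B hB => ?_⟩
  simp only [opAdd, List.mem_cons, List.not_mem_nil, or_false] at hB
  subst hB
  exact small_bAdd ha hb g0

lemma opOK_mul : OpOK opMul := by
  intro k a b M hM hg ha ha' hb hb'
  have g0 : sz (g k) ≤ M := hg 0 (by norm_num)
  refine ⟨g0, g0, by simp [opMul], fun B hB => ?_⟩
  simp only [opMul, List.mem_cons, List.not_mem_nil, or_false] at hB
  subst hB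
  exact small_bMul ha hb g0

lemma opOK_eq : OpOK opEq := by
  intro k a b M hM hg ha ha' hb hb'
  have g0 : sz (g k) ≤ M := hg 0 (by norm_num)
  have g1 := hg 1 (by norm_num)
  have g2 := hg 2 (by norm_num)
  have g3 := hg 3 (by norm_num)
  have g4 := hg 4 (by norm_num)
  have i1 := sz_int1
  refine ⟨g0, g4, by simp [opEq], fun B hB => ?_⟩
  simp only [opEq, List.mem_cons, List.not_mem_nil, or_false] at hB
  rcases hB with rfl | rfl | rfl | rfl
  · exact small_bAdd ha g0 hb
  · exact small_bMul g0 g1 g2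
  · exact small_bConst g3 (by omega)
  · exact small_bAdd g3 g4 g2

lemma opOK_lt : OpOK opLt := by
  intro k a b M hM hg ha ha' hb hb'
  have g0 : sz (g k) ≤ M := hg 0 (by norm_num)
  have g1 := hg 1 (by norm_num)
  have g2 := hg 2 (by norm_num)
  have g3 := hg 3 (by norm_num)
  have g4 := hg 4 (by norm_num)
  have g5 := hg 5 (by norm_num)
  have g6 := hg 6 (by norm_num)
  have g7 := hg 7 (by norm_num)
  have g8 := hg 8 (by norm_num)
  have i1 := sz_int1
  refine ⟨g5, g8, by simp [opLt], fun B hB => ?_⟩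
  simp only [opLt, List.mem_cons, List.not_mem_nil, or_false] at hB
  rcases hB with rfl | rfl | rfl | rfl | rfl | rfl | rfl
  · exact small_bAdd ha g0 hb
  · exact small_bMul g1 g1 g2
  · exact small_bMul g0 g2 g3
  · exact small_bConst g4 (by omega)
  · exact small_bAdd g4 g5 g3
  · exact small_bMul g6 g6 g7
  · exact small_bAdd g0 g7 g8

lemma opOK_and : OpOK opAnd := by
  intro k a b M hM hg ha ha' hb hb'
  have g0 : sz (g k) ≤ M := hg 0 (by norm_num)
  have g1 := hg 1 (by norm_num)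
  have g2 := hg 2 (by norm_num)
  have g3 := hg 3 (by norm_num)
  refine ⟨g2, g3, by simp [opAnd], fun B hB => ?_⟩
  simp only [opAnd, List.mem_cons, List.not_mem_nil, or_false] at hB
  rcases hB with rfl | rfl | rfl | rfl
  · exact small_bMul ha ha g0
  · exact small_bMul hb hb g1
  · exact small_bAdd g0 g1 g2
  · exact small_bMul ha' hb' g3

lemma opOK_or : OpOK opOr := by
  intro k a b M hM hg ha ha' hb hb'
  have g0 : sz (g k) ≤ M := hg 0 (by norm_num)
  have g1 := hg 1 (by norm_num)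
  have g2 := hg 2 (by norm_num)
  have g3 := hg 3 (by norm_num)
  refine ⟨g3, g2, by simp [opOr], fun B hB => ?_⟩
  simp only [opOr, List.mem_cons, List.not_mem_nil, or_false] at hB
  rcases hB with rfl | rfl | rfl | rfl
  · exact small_bMul ha' ha' g0
  · exact small_bMul hb' hb' g1
  · exact small_bAdd g0 g1 g2
  · exact small_bMul ha hb g3

/-- bound on the state after `i` tokens -/
structure Inv (M i : ℕ) (s : State) : Prop where
  next : s.1 ≤ 9 * i
  stack : s.2.1.length ≤ i
  elems : ∀ p ∈ s.2.1, sz p.1 ≤ M ∧ sz p.2 ≤ M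
  nblocks : s.2.2.length ≤ 9 * i
  blocks : ∀ B ∈ s.2.2, Small (4 * M + 16) B

lemma sz_g_le {M i k : ℕ} (hM : 72 * i + 69 ≤ M) (hk : k ≤ 9 * i) : ∀ j < 9, sz (g (k + j)) ≤ M := by
  intro j hj
  have := sz_nat_le_self (g (k + j))
  unfold g at *
  omega

lemma Inv.succ {M i : ℕ} {s : State} (h : Inv M i s) : Inv M (i + 1) s :=
  ⟨by have := h.next; omega, by have := h.stack; omega, h.elems, by have := h.nblocks; omega,
    h.blocks⟩

lemma Inv.bin {M i : ℕ} {s : State} (h : Inv M i s) (hM : 72 * i + 69 ≤ M) {op : Op}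
    (hop : OpOK op) : Inv M (i + 1) (bin op s) := by
  obtain ⟨k, st, L⟩ := s
  obtain ⟨h1, h2, h3, h4, h5⟩ := h
  simp only at h1 h2 h3 h4 h5
  match st, h2, h3 with
  | [], h2, h3 => exact (Inv.mk (s := (k, [], L)) h1 h2 h3 h4 h5).succ
  | [b], h2, h3 => exact (Inv.mk (s := (k, [b], L)) h1 h2 h3 h4 h5).succ
  | b :: a :: st, h2, h3 =>
    have hb := h3 b (by simp)
    have ha := h3 a (by simp)
    obtain ⟨o1, o2, o3, o4⟩ := hop k a b M (by omega) (sz_g_le hM h1) ha.1 ha.2 hb.1 hb.2
    refine ⟨?_, ?_, ?_, ?_, ?_⟩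
    · show k + 9 ≤ _; omega
    · show ((op k a b).1 :: st).length ≤ _
      simp only [List.length_cons] at h2 ⊢; omega
    · show ∀ p ∈ (op k a b).1 :: st, _
      intro p hp
      rcases List.mem_cons.1 hp with rfl | hp
      · exact ⟨o1, o2⟩
      · exact h3 p (by simp [hp])
    · show ((op k a b).2 ++ L).length ≤ _
      rw [List.length_append]; omega
    · show ∀ B ∈ (op k a b).2 ++ L, _
      intro B hB
      rcases List.mem_append.1 hB with hB | hB
      · exact o4 B hB
      · exact h5 B hB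

lemma Inv.neg {M i : ℕ} {s : State} (h : Inv M i s) : Inv M (i + 1) (neg s) := by
  obtain ⟨k, st, L⟩ := s
  obtain ⟨h1, h2, h3, h4, h5⟩ := h
  simp only at h1 h2 h3 h4 h5
  match st, h2, h3 with
  | [], h2, h3 => exact (Inv.mk (s := (k, [], L)) h1 h2 h3 h4 h5).succ
  | a :: st, h2, h3 =>
    have ha := h3 a (by simp)
    refine Inv.succ ⟨h1, h2, ?_, h4, h5⟩
    show ∀ p ∈ (a.2, a.1) :: st, _
    intro p hp
    rcases List.mem_cons.1 hp with rfl | hp
    · exact ⟨ha.2, ha.1⟩
    · exact h3 p (by simp [hp])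

lemma Inv.opStep {M i : ℕ} {s : State} (h : Inv M i s) (hM : 72 * i + 69 ≤ M) (o : ℕ) :
    Inv M (i + 1) (opStep s o) := by
  unfold MinRank.opStep
  split_ifs
  · exact h.bin hM opOK_add
  · exact h.bin hM opOK_mul
  · exact h.bin hM opOK_eq
  · exact h.bin hM opOK_lt
  · exact h.neg
  · exact h.bin hM opOK_and
  · exact h.bin hM opOK_or

lemma Inv.step {M i : ℕ} {s : State} (h : Inv M i s) (hM : 72 * i + 69 ≤ M)
    (t : ℕ ⊕ ℤ ⊕ ℕ) (ht : 4 * sz t + 5 ≤ M) : Inv M (i + 1) (step s t) := by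
  rcases t with v | c | o
  · obtain ⟨h1, h2, h3, h4, h5⟩ := h
    have hv : sz (2 * v) ≤ M := by
      have := sz_two_mul v
      rw [sz_inl] at ht
      omega
    refine ⟨?_, ?_, ?_, ?_, h5⟩
    · show s.1 ≤ _; omega
    · show ((2 * v, 2 * v) :: s.2.1).length ≤ _
      simp only [List.length_cons]; omega
    · show ∀ p ∈ (2 * v, 2 * v) :: s.2.1, _
      intro p hp
      rcases List.mem_cons.1 hp with rfl | hp
      · exact ⟨hv, hv⟩
      · exact h3 p hp
    · show s.2.2.length ≤ _; omega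
  · obtain ⟨h1, h2, h3, h4, h5⟩ := h
    have hc : sz c ≤ M := by
      rw [sz_inr, sz_inl] at ht
      omega
    have hg : sz (g s.1) ≤ M := sz_g_le hM h1 0 (by norm_num)
    refine ⟨?_, ?_, ?_, ?_, ?_⟩
    · show s.1 + 9 ≤ _; omega
    · show ((g s.1, g s.1) :: s.2.1).length ≤ _
      simp only [List.length_cons]; omega
    · show ∀ p ∈ (g s.1, g s.1) :: s.2.1, _
      intro p hp
      rcases List.mem_cons.1 hp with rfl | hp
      · exact ⟨hg, hg⟩
      · exact h3 p hp
    · show (bConst (g s.1) c :: s.2.2).length ≤ _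
      simp only [List.length_cons]; omega
    · show ∀ B ∈ bConst (g s.1) c :: s.2.2, _
      intro B hB
      rcases List.mem_cons.1 hB with rfl | hB
      · exact small_bConst hg hc
      · exact h5 B hB
  · exact h.opStep hM o

lemma inv_foldl {M : ℕ} (l : List (ℕ ⊕ ℤ ⊕ ℕ)) : ∀ (i : ℕ) (s : State), Inv M i s →
    72 * (i + l.length) + 69 ≤ M → (∀ t ∈ l, 4 * sz t + 5 ≤ M) →
    Inv M (i + l.length) (l.foldl step s) := by
  induction l with
  | nil => intro i s h _ _; exact h
  | cons t l ih =>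
    intro i s h hM ht
    rw [List.foldl_cons, List.length_cons]
    rw [List.length_cons] at hM
    have := ih (i + 1) (step s t) (h.step (by omega) t (ht t (by simp))) (by omega)
      (fun t' ht' => ht t' (by simp [ht']))
    rwa [show i + (l.length + 1) = i + 1 + l.length by ring]

lemma Inv.size {M i : ℕ} {s : State} (h : Inv M i s) :
    sz s ≤ (36 * i + 1) + (i * (2 * M + 2) + 1) + (9 * i * (9 * (4 * M + 17) + 2) + 1) + 2 := by
  obtain ⟨k, st, L⟩ := s
  obtain ⟨h1, h2, h3, h4, h5⟩ := h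
  simp only at h1 h2 h3 h4 h5
  rw [sz_pair, sz_pair]
  have e1 : sz k ≤ 36 * i + 1 := by
    have := sz_nat_le_self k
    omega
  have e2 : sz st ≤ i * (2 * M + 2) + 1 := by
    have h6 : ∀ p ∈ st, sz p ≤ 2 * M + 1 := by
      intro p hp
      rw [sz_prod]
      have := h3 p hp
      omega
    refine (sz_list_le h6).trans ?_
    gcongr
  have e3 : sz L ≤ 9 * i * (9 * (4 * M + 17) + 2) + 1 := by
    have h6 : ∀ B ∈ L, sz B ≤ 9 * (4 * M + 17) + 1 := by
      intro B hB
      exact (h5 B hB).size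
    refine (sz_list_le h6).trans ?_
    gcongr
  omega

lemma PT_run {f : α → List Token} (hf : PT f) : PT fun a => run (f a) (0, [], []) := by
  unfold run
  have h1 : PT fun a => (f a).map Token.toSum :=
    PT.map (f := fun (_ : α) (t : Token) => t.toSum) (PT_toSum (by fun_prop)) hf
  refine PT.foldl (g := fun (_ : α) (s : State) (t : ℕ ⊕ ℤ ⊕ ℕ) => step s t)
    (s := fun _ => (0, [], [])) (l := fun a => (f a).map Token.toSum)
    (PT_step.comp (f := fun p : α × State × (ℕ ⊕ ℤ ⊕ ℕ) => p.2) (by fun_prop)) (PT.const _) h1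
    (B := fun a => (36 * sz ((f a).map Token.toSum) + 1) +
      (sz ((f a).map Token.toSum) * (2 * (72 * sz ((f a).map Token.toSum) + 69) + 2) + 1) +
      (9 * sz ((f a).map Token.toSum) * (9 * (4 * (72 * sz ((f a).map Token.toSum) + 69) + 17) + 2)
        + 1) + 2) ?_ ?_
  · have h2 := PT.bdd h1
    have h3 : PBd fun a => 72 * sz ((f a).map Token.toSum) + 69 :=
      ((PBd.const 72).mul h2).add (PBd.const 69)
    refine ((((((PBd.const 36).mul h2).add (PBd.const 1)).add ((h2.mul (((PBd.const 2).mul h3).add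
      (PBd.const 2))).add (PBd.const 1))).add ((((PBd.const 9).mul h2).mul
      (((PBd.const 9).mul ((((PBd.const 4).mul h3)).add (PBd.const 17))).add (PBd.const 2))).add
      (PBd.const 1))).add (PBd.const 2))
  · intro a l1 l2 h
    set S := sz ((f a).map Token.toSum) with hS
    have hl : l1.length ≤ S := by
      have := length_lt_sz ((f a).map Token.toSum)
      rw [h, List.length_append] at this
      rw [hS, h]; omega
    have h0 : Inv (72 * S + 69) 0 (0, [], []) :=
      ⟨le_rfl, le_rfl, fun p hp => by simp at hp, le_rfl, fun p hp => by simp at hp⟩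
    have h1 := inv_foldl l1 0 (0, [], []) h0 (by omega) (fun t ht => by
      have : sz t ≤ S := by
        rw [hS, h]
        exact sz_le_of_mem (by simp [ht])
      omega)
    refine h1.size.trans ?_
    have h2 : 0 + l1.length ≤ S := by omega
    gcongr

lemma PT_sysOf {f : α → List Token} (hf : PT f) : PT fun a => sysOf (f a) := by
  have h1 := PT_run hf
  refine (PT.listCases (l := fun a => (run (f a) (0, [], [])).2.1) (f := fun _ => [])
    (g := fun a p _ => bConst p.1 0 :: (run (f a) (0, [], [])).2.2) (by fun_prop)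
    (by fun_prop) ?_).congr (by
      intro a
      unfold sysOf
      rcases (run (f a) (0, [], [])).2.1 with _ | ⟨p, st⟩ <;> rfl)
  have h2 : PT fun p : α × (ℕ × ℕ) × List (ℕ × ℕ) => run (f p.1) (0, [], []) :=
    h1.comp (f := fun p : α × (ℕ × ℕ) × List (ℕ × ℕ) => p.1) (by fun_prop)
  fun_prop

/-! ### the large matrix -/

@[fun_prop] lemma PT_padEntry {B : α → Block} {i j : α → ℕ} (hB : PT B) (hi : PT i) (hj : PT j) :
    PT fun a => padEntry (B a) (i a) (j a) := by
  unfold padEntry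
  refine PT.ite (p := fun a => i a < 3 ∧ j a < 3) (PT.decide_and ?_ ?_) ?_
    (PT.ite (p := fun a => i a = j a) ?_ ?_ ?_) <;> fun_prop

lemma PT_bigEntry (R : ℕ) {n : α → ℕ} {L : α → List Block} {i j : α → ℕ} (hn : PT n) (hL : PT L)
    (hi : PT i) (hj : PT j) : PT fun a => bigEntry R (n a) (L a) (i a) (j a) := by
  unfold bigEntry
  refine PT.ite (p := fun a => i a / R = j a / R) ?_ ?_ ?_ <;> fun_prop

lemma bigMat_rows (R : ℕ) (L : List Block) : (bigMat R L).rows =
    (List.range (R * L.length)).map fun i => (List.range (R * L.length)).map fun j =>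
      bigEntry R (R * L.length) L i j := by
  unfold Mat.rows bigMat
  simp only [List.ofFn_eq_map]
  rw [← List.map_coe_finRange_eq_range, List.map_map]
  refine List.map_congr_left fun i _ => ?_
  simp only [Function.comp_apply, List.map_map]
  rfl

lemma PT_bigMat (R : ℕ) {L : α → List Block} (hL : PT L) : PT fun a => bigMat R (L a) := by
  have h0 : PT fun a => List.range (R * (L a).length) := by
    have h1 : PT fun a => (L a).flatMap fun _ => List.replicate R () :=
      PT.flatMap (f := fun (_ : α) (_ : Block) => List.replicate R ()) (PT.const _) hL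
    refine (PT.rangeLength h1).congr fun a => ?_
    congr 1
    rw [List.length_flatMap]
    simp [mul_comm]
  have hLen : PT fun a => (L a).length := by fun_prop
  have h1 : PT fun a => (bigMat R (L a)).rows := by
    simp only [bigMat_rows]
    refine PT.map (f := fun a i => (List.range (R * (L a).length)).map fun j =>
      bigEntry R (R * (L a).length) (L a) i j) ?_ h0
    refine PT.map (f := fun (p : α × ℕ) j => bigEntry R (R * (L p.1).length) (L p.1) p.2 j) ?_ ?_
    · have h2 : PT fun p : (α × ℕ) × ℕ => L p.1.1 := hL.comp (f := fun p : (α × ℕ) × ℕ => p.1.1)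
        (by fun_prop)
      refine PT_bigEntry R ?_ h2 ?_ ?_ <;> fun_prop
    · exact h0.comp (f := fun p : α × ℕ => p.1) (by fun_prop)
  exact h1

end Pool.Agent.MinRank
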