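import Pool.Agent.MinRank.Defs

/-!
# Blocks

A block is a `3 × 3` matrix with entries rational numbers or variables, given as the list of its
nine entries. The determinant of each of the blocks `bAdd`, `bMul`, `bConst` vanishes if and only if
an equation `c = a + b`, `c = a * b`, `a = const` holds.
-/

set_option autoImplicit false

namespace Pool.Agent.MinRank

open Pool.Agent.PolyTime

/-- a block: the list of the nine entries -/
abbrev Block : Type := List (ℚ ⊕ ℕ)

/-- constant entry -/
def cst (q : ℚ) : ℚ ⊕ ℕ := Sum.inl q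

/-- variable entry; the variables of the system are given even numbers -/
def vr (v : ℕ) : ℚ ⊕ ℕ := Sum.inr (2 * v)

/-- block for `c = a + b` -/
def bAdd (a b c : ℕ) : Block :=
  [cst 1, cst 0, vr a, cst 0, cst 1, vr b, cst 1, cst 1, vr c]

/-- block for `c = a * b` -/
def bMul (a b c : ℕ) : Block :=
  [cst 1, vr a, cst 0, vr b, vr c, cst 0, cst 0, cst 0, cst 1]

/-- block for `a = q` -/
def bConst (a : ℕ) (q : ℤ) : Block :=
  [vr a, cst q, cst 0, cst 1, cst 1, cst 0, cst 0, cst 0, cst 1]

/-- the real matrix of a block -/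
noncomputable def blockMat (z : ℕ → ℝ) (B : Block) : Matrix (Fin 3) (Fin 3) ℝ :=
  Matrix.of fun i j => evalEntry z (B.getD (3 * i.1 + j.1) (cst 0))

lemma det_bAdd (z : ℕ → ℝ) (a b c : ℕ) :
    (blockMat z (bAdd a b c)).det = z (2 * c) - z (2 * a) - z (2 * b) := by
  rw [Matrix.det_fin_three]
  simp [blockMat, bAdd, cst, vr, evalEntry]
  ring

lemma det_bMul (z : ℕ → ℝ) (a b c : ℕ) :
    (blockMat z (bMul a b c)).det = z (2 * c) - z (2 * a) * z (2 * b) := by
  rw [Matrix.det_fin_three]
  simp [blockMat, bMul, cst, vr, evalEntry]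

lemma det_bConst (z : ℕ → ℝ) (a : ℕ) (q : ℤ) :
    (blockMat z (bConst a q)).det = z (2 * a) - q := by
  rw [Matrix.det_fin_three]
  simp [blockMat, bConst, cst, vr, evalEntry]

/-- all the blocks of the list are singular for some values of the variables with odd numbers,
those with even numbers being given by `x` -/
def Sat (x : ℕ → ℝ) (L : List Block) : Prop :=
  ∃ z : ℕ → ℝ, (∀ v, z (2 * v) = x v) ∧ ∀ B ∈ L, (blockMat z B).det = 0

/-- the block only involves variables with even numbers -/
def EvenVars (B : Block) : Prop :=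
  ∀ z z' : ℕ → ℝ, (∀ v, z (2 * v) = z' (2 * v)) → blockMat z B = blockMat z' B

lemma evenVars_bAdd (a b c : ℕ) : EvenVars (bAdd a b c) := by
  intro z z' h
  ext i j
  fin_cases i <;> fin_cases j <;> simp [blockMat, bAdd, cst, vr, evalEntry, h]

lemma evenVars_bMul (a b c : ℕ) : EvenVars (bMul a b c) := by
  intro z z' h
  ext i j
  fin_cases i <;> fin_cases j <;> simp [blockMat, bMul, cst, vr, evalEntry, h]

lemma evenVars_bConst (a : ℕ) (q : ℤ) : EvenVars (bConst a q) := by
  intro z z' h
  ext i j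
  fin_cases i <;> fin_cases j <;> simp [blockMat, bConst, cst, vr, evalEntry, h]

/-- all the blocks of the list only involve variables with even numbers, and are singular when
these variables have the values given by `x` -/
def Holds (x : ℕ → ℝ) (L : List Block) : Prop :=
  ∀ B ∈ L, EvenVars B ∧ ∀ z : ℕ → ℝ, (∀ v, z (2 * v) = x v) → (blockMat z B).det = 0

lemma Sat.mono {x : ℕ → ℝ} {L L' : List Block} (h : Sat x L) (hL : ∀ B ∈ L', B ∈ L) : Sat x L' := by
  obtain ⟨z, hz, h⟩ := h
  exact ⟨z, hz, fun B hB => h B (hL B hB)⟩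

lemma Sat.add {x : ℕ → ℝ} {L : List Block} (h : Sat x L) {a b c : ℕ} (hB : bAdd a b c ∈ L) :
    x c = x a + x b := by
  obtain ⟨z, hz, h⟩ := h
  have h1 := h _ hB
  rw [det_bAdd, hz, hz, hz] at h1
  linarith

lemma Sat.mul {x : ℕ → ℝ} {L : List Block} (h : Sat x L) {a b c : ℕ} (hB : bMul a b c ∈ L) :
    x c = x a * x b := by
  obtain ⟨z, hz, h⟩ := h
  have h1 := h _ hB
  rw [det_bMul, hz, hz, hz] at h1
  linarith

lemma Sat.const {x : ℕ → ℝ} {L : List Block} (h : Sat x L) {a : ℕ} {q : ℤ}
    (hB : bConst a q ∈ L) : x a = q := by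
  obtain ⟨z, hz, h⟩ := h
  have h1 := h _ hB
  rw [det_bConst, hz] at h1
  linarith

lemma Holds.nil (x : ℕ → ℝ) : Holds x [] := fun B hB => by simp at hB

lemma Holds.append {x : ℕ → ℝ} {L L' : List Block} (h : Holds x L) (h' : Holds x L') :
    Holds x (L ++ L') := by
  intro B hB
  rcases List.mem_append.1 hB with hB | hB
  · exact h B hB
  · exact h' B hB

lemma Holds.cons_add {x : ℕ → ℝ} {L : List Block} {a b c : ℕ} (h : x c = x a + x b)
    (hL : Holds x L) : Holds x (bAdd a b c :: L) := by
  intro B hB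
  rcases List.mem_cons.1 hB with rfl | hB
  · exact ⟨evenVars_bAdd a b c, fun z hz => by rw [det_bAdd, hz, hz, hz]; linarith⟩
  · exact hL B hB

lemma Holds.cons_mul {x : ℕ → ℝ} {L : List Block} {a b c : ℕ} (h : x c = x a * x b)
    (hL : Holds x L) : Holds x (bMul a b c :: L) := by
  intro B hB
  rcases List.mem_cons.1 hB with rfl | hB
  · exact ⟨evenVars_bMul a b c, fun z hz => by rw [det_bMul, hz, hz, hz]; linarith⟩
  · exact hL B hB

lemma Holds.cons_const {x : ℕ → ℝ} {L : List Block} {a : ℕ} {q : ℤ} (h : x a = q)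
    (hL : Holds x L) : Holds x (bConst a q :: L) := by
  intro B hB
  rcases List.mem_cons.1 hB with rfl | hB
  · exact ⟨evenVars_bConst a q, fun z hz => by rw [det_bConst, hz]; linarith⟩
  · exact hL B hB

end Pool.Agent.MinRank
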