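import Pool.Agent.MinRank.Blocks

/-!
# From formulas to systems of blocks

The tokens of a formula are processed from left to right with a stack. The variable `u` of the
formula is the variable `2 * u` of the system; the variables `g k = 2 * k + 1` are auxiliary.
A stack element `(p, n)` stands for a term or a formula:
for a term, `p = n` is a variable whose value is the value of the term; for a formula `φ`, the
variable `p` can be made `0` exactly when `φ` holds, and the variable `n` can be made `0` exactly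
when `φ` does not hold.
-/

set_option autoImplicit false

namespace Pool.Agent.MinRank

open Pool.Agent.PolyTime

/-- auxiliary variables -/
def g (k : ℕ) : ℕ := 2 * k + 1

/-- The state: number of auxiliary variables used so far, stack, list of blocks. -/
abbrev State : Type := ℕ × List (ℕ × ℕ) × List Block

/-- binary operations on stack elements: new element and new blocks -/
abbrev Op : Type := ℕ → ℕ × ℕ → ℕ × ℕ → (ℕ × ℕ) × List Block

/-- sum -/
def opAdd : Op := fun k a b => ((g k, g k), [bAdd a.1 b.1 (g k)])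

/-- product -/
def opMul : Op := fun k a b => ((g k, g k), [bMul a.1 b.1 (g k)])

/-- equation: `d = b - a`, and `d * z = 1 + n` -/
def opEq : Op := fun k a b => ((g k, g (k + 4)),
  [bAdd a.1 (g k) b.1, bMul (g k) (g (k + 1)) (g (k + 2)), bConst (g (k + 3)) 1,
    bAdd (g (k + 3)) (g (k + 4)) (g (k + 2))])

/-- inequality: `d = b - a`, `d * z ^ 2 = 1 + p`, `n = d + t ^ 2` -/
def opLt : Op := fun k a b => ((g (k + 5), g (k + 8)),
  [bAdd a.1 (g k) b.1, bMul (g (k + 1)) (g (k + 1)) (g (k + 2)),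
    bMul (g k) (g (k + 2)) (g (k + 3)), bConst (g (k + 4)) 1,
    bAdd (g (k + 4)) (g (k + 5)) (g (k + 3)), bMul (g (k + 6)) (g (k + 6)) (g (k + 7)),
    bAdd (g k) (g (k + 7)) (g (k + 8))])

/-- conjunction -/
def opAnd : Op := fun k a b => ((g (k + 2), g (k + 3)),
  [bMul a.1 a.1 (g k), bMul b.1 b.1 (g (k + 1)), bAdd (g k) (g (k + 1)) (g (k + 2)),
    bMul a.2 b.2 (g (k + 3))])

/-- disjunction -/
def opOr : Op := fun k a b => ((g (k + 3), g (k + 2)),
  [bMul a.2 a.2 (g k), bMul b.2 b.2 (g (k + 1)), bAdd (g k) (g (k + 1)) (g (k + 2)),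
    bMul a.1 b.1 (g (k + 3))])

/-- apply a binary operation to the two elements on top of the stack -/
def bin (op : Op) (s : State) : State :=
  match s.2.1 with
  | [] => s
  | b :: l => match l with
    | [] => s
    | a :: st => (s.1 + 9, (op s.1 a b).1 :: st, (op s.1 a b).2 ++ s.2.2)

/-- negation: exchange the two components of the top element -/
def neg (s : State) : State :=
  match s.2.1 with
  | [] => s
  | a :: st => (s.1, (a.2, a.1) :: st, s.2.2)

/-- the operation number `o` -/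
def opStep (s : State) (o : ℕ) : State :=
  if o = 0 then bin opAdd s else if o = 1 then bin opMul s else if o = 2 then bin opEq s else
  if o = 3 then bin opLt s else if o = 4 then neg s else if o = 5 then bin opAnd s else bin opOr s

/-- process a token -/
def step (s : State) (t : ℕ ⊕ ℤ ⊕ ℕ) : State :=
  match t with
  | Sum.inl v => (s.1, (2 * v, 2 * v) :: s.2.1, s.2.2)
  | Sum.inr t => match t with
    | Sum.inl c => (s.1 + 9, (g s.1, g s.1) :: s.2.1, bConst (g s.1) c :: s.2.2)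
    | Sum.inr o => opStep s o

/-- process a list of tokens -/
def run (l : List Token) (s : State) : State := (l.map Token.toSum).foldl step s

lemma run_append (l l' : List Token) (s : State) : run (l ++ l') s = run l' (run l s) := by
  simp [run]

/-- variables whose values are determined when the first `k` auxiliary variables are known -/
def Low (k v : ℕ) : Prop := v % 2 = 0 ∨ v < 2 * k

lemma Low.mono {k k' v : ℕ} (h : Low k v) (hk : k ≤ k') : Low k' v := by
  unfold Low at *; omega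

lemma low_even (k u : ℕ) : Low k (2 * u) := by unfold Low; omega

lemma low_g {k j : ℕ} (h : j < k) : Low k (g j) := by unfold Low g; omega

/-- agreement on the low variables -/
def Agree (k : ℕ) (x x' : ℕ → ℝ) : Prop := ∀ v, Low k v → x' v = x v

lemma Agree.refl (k : ℕ) (x : ℕ → ℝ) : Agree k x x := fun _ _ => rfl

lemma Agree.trans {k : ℕ} {x x' x'' : ℕ → ℝ} (h : Agree k x x') (h' : Agree k x' x'') :
    Agree k x x'' := fun v hv => (h' v hv).trans (h v hv)

lemma Agree.mono {k k' : ℕ} {x x' : ℕ → ℝ} (h : Agree k' x x') (hk : k ≤ k') : Agree k x x' :=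
  fun v hv => h v (hv.mono hk)

lemma Agree.even {k : ℕ} {x x' : ℕ → ℝ} (h : Agree k x x') (u : ℕ) : x' (2 * u) = x (2 * u) :=
  h _ (low_even k u)

/-- extension with prescribed values at the next nine auxiliary variables -/
lemma exists_ext (k : ℕ) (x : ℕ → ℝ) (w : ℕ → ℝ) :
    ∃ x', Agree k x x' ∧ ∀ x'', Agree (k + 9) x' x'' →
      Agree k x x'' ∧ ∀ j, j < 9 → x'' (g (k + j)) = w j := by
  classical
  refine ⟨fun v => if Low k v then x v else w ((v - (2 * k + 1)) / 2), fun v hv => by simp [hv],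
    fun x'' h => ⟨fun v hv => ?_, fun j hj => ?_⟩⟩
  · rw [h v (hv.mono (by omega))]; simp [hv]
  · rw [h _ (low_g (by omega))]
    have h1 : ¬ Low k (g (k + j)) := by unfold Low g; omega
    have h2 : (g (k + j) - (2 * k + 1)) / 2 = j := by unfold g; omega
    simp [h1, h2]

lemma Holds.sat {x : ℕ → ℝ} {L : List Block} (h : Holds x L) : Sat x L := by
  refine ⟨fun v => x (v / 2), fun v => ?_, fun B hB => (h B hB).2 _ fun v => ?_⟩
  · show x (2 * v / 2) = x v
    rw [Nat.mul_div_cancel_left _ (by norm_num)]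
  · show x (2 * v / 2) = x v
    rw [Nat.mul_div_cancel_left _ (by norm_num)]

/-! ### the operations -/

lemma opAdd_complete (k : ℕ) (a b : ℕ × ℕ) (ha : Low k a.1) (hb : Low k b.1) (x : ℕ → ℝ) :
    ∃ x', Agree k x x' ∧ ∀ x'', Agree (k + 9) x' x'' → Holds x'' (opAdd k a b).2 := by
  obtain ⟨x', h1, h2⟩ := exists_ext k x fun _ => x a.1 + x b.1
  refine ⟨x', h1, fun x'' h => ?_⟩
  obtain ⟨h3, h4⟩ := h2 x'' h
  have e0 := h4 0 (by norm_num)
  rw [add_zero] at e0
  refine Holds.cons_add ?_ (Holds.nil _)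
  rw [e0, h3 _ ha, h3 _ hb]

lemma opMul_complete (k : ℕ) (a b : ℕ × ℕ) (ha : Low k a.1) (hb : Low k b.1) (x : ℕ → ℝ) :
    ∃ x', Agree k x x' ∧ ∀ x'', Agree (k + 9) x' x'' → Holds x'' (opMul k a b).2 := by
  obtain ⟨x', h1, h2⟩ := exists_ext k x fun _ => x a.1 * x b.1
  refine ⟨x', h1, fun x'' h => ?_⟩
  obtain ⟨h3, h4⟩ := h2 x'' h
  have e0 := h4 0 (by norm_num)
  rw [add_zero] at e0
  refine Holds.cons_mul ?_ (Holds.nil _)
  rw [e0, h3 _ ha, h3 _ hb]

lemma opEq_sound (k : ℕ) (a b : ℕ × ℕ) (x : ℕ → ℝ) (h : Sat x (opEq k a b).2) :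
    (x (opEq k a b).1.1 = 0 → x a.1 = x b.1) ∧ (x (opEq k a b).1.2 = 0 → x a.1 ≠ x b.1) := by
  have h1 : x b.1 = x a.1 + x (g k) := h.add (by simp [opEq])
  have h2 : x (g (k + 2)) = x (g k) * x (g (k + 1)) := h.mul (by simp [opEq])
  have h3 : x (g (k + 3)) = ((1 : ℤ) : ℝ) := h.const (by simp [opEq])
  have h4 : x (g (k + 2)) = x (g (k + 3)) + x (g (k + 4)) := h.add (by simp [opEq])
  refine ⟨fun h5 => ?_, fun h5 h6 => ?_⟩
  · have h5' : x (g k) = 0 := h5
    linarith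
  · have h5' : x (g (k + 4)) = 0 := h5
    have h7 : x (g k) = 0 := by linarith
    rw [h3, h5', h2, h7] at h4
    norm_num at h4

lemma opEq_complete (k : ℕ) (a b : ℕ × ℕ) (ha : Low k a.1) (hb : Low k b.1) (x : ℕ → ℝ) :
    ∃ x', Agree k x x' ∧ ∀ x'', Agree (k + 9) x' x'' → Holds x'' (opEq k a b).2 ∧
      (x'' a.1 = x'' b.1 → x'' (opEq k a b).1.1 = 0) ∧
      (x'' a.1 ≠ x'' b.1 → x'' (opEq k a b).1.2 = 0) := by
  set d := x b.1 - x a.1 with hd
  obtain ⟨x', h1, h2⟩ := exists_ext k x fun j => [d, d⁻¹, d * d⁻¹, 1, d * d⁻¹ - 1].getD j 0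
  refine ⟨x', h1, fun x'' h => ?_⟩
  obtain ⟨h3, h4⟩ := h2 x'' h
  have e0 : x'' (g k) = d := h4 0 (by norm_num)
  have e1 : x'' (g (k + 1)) = d⁻¹ := h4 1 (by norm_num)
  have e2 : x'' (g (k + 2)) = d * d⁻¹ := h4 2 (by norm_num)
  have e3 : x'' (g (k + 3)) = 1 := h4 3 (by norm_num)
  have e4 : x'' (g (k + 4)) = d * d⁻¹ - 1 := h4 4 (by norm_num)
  refine ⟨?_, fun h5 => ?_, fun h5 => ?_⟩
  · refine Holds.cons_add ?_ (Holds.cons_mul ?_ (Holds.cons_const ?_ (Holds.cons_add ?_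
      (Holds.nil _))))
    · rw [h3 _ hb, h3 _ ha, e0]; linarith
    · rw [e0, e1, e2]
    · rw [e3]; norm_num
    · rw [e2, e3, e4]; ring
  · rw [h3 _ hb, h3 _ ha] at h5
    show x'' (g k) = 0
    rw [e0]; linarith
  · rw [h3 _ hb, h3 _ ha] at h5
    show x'' (g (k + 4)) = 0
    have : d ≠ 0 := fun h => h5 (by linarith)
    rw [e4, mul_inv_cancel₀ this]; norm_num

lemma opLt_sound (k : ℕ) (a b : ℕ × ℕ) (x : ℕ → ℝ) (h : Sat x (opLt k a b).2) :
    (x (opLt k a b).1.1 = 0 → x a.1 < x b.1) ∧ (x (opLt k a b).1.2 = 0 → ¬ x a.1 < x b.1) := by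
  have h1 : x b.1 = x a.1 + x (g k) := h.add (by simp [opLt])
  have h2 : x (g (k + 2)) = x (g (k + 1)) * x (g (k + 1)) := h.mul (by simp [opLt])
  have h3 : x (g (k + 3)) = x (g k) * x (g (k + 2)) := h.mul (by simp [opLt])
  have h4 : x (g (k + 4)) = ((1 : ℤ) : ℝ) := h.const (by simp [opLt])
  have h5 : x (g (k + 3)) = x (g (k + 4)) + x (g (k + 5)) := h.add (by simp [opLt])
  have h6 : x (g (k + 7)) = x (g (k + 6)) * x (g (k + 6)) := h.mul (by simp [opLt])
  have h7 : x (g (k + 8)) = x (g k) + x (g (k + 7)) := h.add (by simp [opLt])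
  refine ⟨fun h8 => ?_, fun h8 h9 => ?_⟩
  · have h8' : x (g (k + 5)) = 0 := h8
    have h10 : x (g k) * (x (g (k + 1)) * x (g (k + 1))) = 1 := by
      rw [← h2, ← h3, h5, h4, h8']; norm_num
    have h11 : 0 < x (g k) := by
      by_contra h12
      push Not at h12
      have := mul_self_nonneg (x (g (k + 1)))
      nlinarith
    linarith
  · have h8' : x (g (k + 8)) = 0 := h8
    have := mul_self_nonneg (x (g (k + 6)))
    rw [h8', h6] at h7
    linarith

lemma opLt_complete (k : ℕ) (a b : ℕ × ℕ) (ha : Low k a.1) (hb : Low k b.1) (x : ℕ → ℝ) :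
    ∃ x', Agree k x x' ∧ ∀ x'', Agree (k + 9) x' x'' → Holds x'' (opLt k a b).2 ∧
      (x'' a.1 < x'' b.1 → x'' (opLt k a b).1.1 = 0) ∧
      (¬ x'' a.1 < x'' b.1 → x'' (opLt k a b).1.2 = 0) := by
  set d := x b.1 - x a.1 with hd
  set z := (Real.sqrt d)⁻¹ with hz
  set t := Real.sqrt (-d) with ht
  obtain ⟨x', h1, h2⟩ := exists_ext k x fun j =>
    [d, z, z * z, d * (z * z), 1, d * (z * z) - 1, t, t * t, d + t * t].getD j 0
  refine ⟨x', h1, fun x'' h => ?_⟩
  obtain ⟨h3, h4⟩ := h2 x'' h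
  have e0 : x'' (g k) = d := h4 0 (by norm_num)
  have e1 : x'' (g (k + 1)) = z := h4 1 (by norm_num)
  have e2 : x'' (g (k + 2)) = z * z := h4 2 (by norm_num)
  have e3 : x'' (g (k + 3)) = d * (z * z) := h4 3 (by norm_num)
  have e4 : x'' (g (k + 4)) = 1 := h4 4 (by norm_num)
  have e5 : x'' (g (k + 5)) = d * (z * z) - 1 := h4 5 (by norm_num)
  have e6 : x'' (g (k + 6)) = t := h4 6 (by norm_num)
  have e7 : x'' (g (k + 7)) = t * t := h4 7 (by norm_num)
  have e8 : x'' (g (k + 8)) = d + t * t := h4 8 (by norm_num)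
  refine ⟨?_, fun h5 => ?_, fun h5 => ?_⟩
  · refine Holds.cons_add ?_ (Holds.cons_mul ?_ (Holds.cons_mul ?_ (Holds.cons_const ?_
      (Holds.cons_add ?_ (Holds.cons_mul ?_ (Holds.cons_add ?_ (Holds.nil _)))))))
    · rw [h3 _ hb, h3 _ ha, e0]; linarith
    · rw [e1, e2]
    · rw [e0, e2, e3]
    · rw [e4]; norm_num
    · rw [e3, e4, e5]; ring
    · rw [e6, e7]
    · rw [e0, e7, e8]
  · rw [h3 _ hb, h3 _ ha] at h5
    show x'' (g (k + 5)) = 0
    have h6 : 0 < d := by linarith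
    have h7 : z * z = d⁻¹ := by
      rw [hz, ← mul_inv, Real.mul_self_sqrt h6.le]
    rw [e5, h7, mul_inv_cancel₀ h6.ne']; norm_num
  · rw [h3 _ hb, h3 _ ha] at h5
    show x'' (g (k + 8)) = 0
    have h6 : 0 ≤ -d := by linarith
    rw [e8, ht, Real.mul_self_sqrt h6]; ring

lemma opAnd_sound (k : ℕ) (a b : ℕ × ℕ) (x : ℕ → ℝ) (h : Sat x (opAnd k a b).2) :
    (x (opAnd k a b).1.1 = 0 → x a.1 = 0 ∧ x b.1 = 0) ∧
    (x (opAnd k a b).1.2 = 0 → x a.2 = 0 ∨ x b.2 = 0) := by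
  have h1 : x (g k) = x a.1 * x a.1 := h.mul (by simp [opAnd])
  have h2 : x (g (k + 1)) = x b.1 * x b.1 := h.mul (by simp [opAnd])
  have h3 : x (g (k + 2)) = x (g k) + x (g (k + 1)) := h.add (by simp [opAnd])
  have h4 : x (g (k + 3)) = x a.2 * x b.2 := h.mul (by simp [opAnd])
  refine ⟨fun h5 => ?_, fun h5 => ?_⟩
  · have h5' : x (g (k + 2)) = 0 := h5
    rw [h5', h1, h2] at h3
    constructor <;> nlinarith [mul_self_nonneg (x a.1), mul_self_nonneg (x b.1)]
  · have h5' : x (g (k + 3)) = 0 := h5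
    rw [h5'] at h4
    exact mul_eq_zero.1 h4.symm

lemma opAnd_complete (k : ℕ) (a b : ℕ × ℕ) (ha : Low k a.1) (hb : Low k b.1) (ha' : Low k a.2)
    (hb' : Low k b.2) (x : ℕ → ℝ) :
    ∃ x', Agree k x x' ∧ ∀ x'', Agree (k + 9) x' x'' → Holds x'' (opAnd k a b).2 ∧
      (x'' a.1 = 0 ∧ x'' b.1 = 0 → x'' (opAnd k a b).1.1 = 0) ∧
      (x'' a.2 = 0 ∨ x'' b.2 = 0 → x'' (opAnd k a b).1.2 = 0) := by
  obtain ⟨x', h1, h2⟩ := exists_ext k x fun j =>
    [x a.1 * x a.1, x b.1 * x b.1, x a.1 * x a.1 + x b.1 * x b.1, x a.2 * x b.2].getD j 0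
  refine ⟨x', h1, fun x'' h => ?_⟩
  obtain ⟨h3, h4⟩ := h2 x'' h
  have e0 : x'' (g k) = x a.1 * x a.1 := h4 0 (by norm_num)
  have e1 : x'' (g (k + 1)) = x b.1 * x b.1 := h4 1 (by norm_num)
  have e2 : x'' (g (k + 2)) = x a.1 * x a.1 + x b.1 * x b.1 := h4 2 (by norm_num)
  have e3 : x'' (g (k + 3)) = x a.2 * x b.2 := h4 3 (by norm_num)
  refine ⟨?_, fun h5 => ?_, fun h5 => ?_⟩
  · refine Holds.cons_mul ?_ (Holds.cons_mul ?_ (Holds.cons_add ?_ (Holds.cons_mul ?_
      (Holds.nil _))))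
    · rw [h3 _ ha, e0]
    · rw [h3 _ hb, e1]
    · rw [e0, e1, e2]
    · rw [h3 _ ha', h3 _ hb', e3]
  · rw [h3 _ hb, h3 _ ha] at h5
    show x'' (g (k + 2)) = 0
    rw [e2, h5.1, h5.2]; norm_num
  · rw [h3 _ hb', h3 _ ha'] at h5
    show x'' (g (k + 3)) = 0
    rw [e3]
    exact mul_eq_zero.2 h5

lemma opOr_sound (k : ℕ) (a b : ℕ × ℕ) (x : ℕ → ℝ) (h : Sat x (opOr k a b).2) :
    (x (opOr k a b).1.1 = 0 → x a.1 = 0 ∨ x b.1 = 0) ∧
    (x (opOr k a b).1.2 = 0 → x a.2 = 0 ∧ x b.2 = 0) := by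
  have := opAnd_sound k (a.2, a.1) (b.2, b.1) x h
  exact ⟨this.2, this.1⟩

lemma opOr_complete (k : ℕ) (a b : ℕ × ℕ) (ha : Low k a.1) (hb : Low k b.1) (ha' : Low k a.2)
    (hb' : Low k b.2) (x : ℕ → ℝ) :
    ∃ x', Agree k x x' ∧ ∀ x'', Agree (k + 9) x' x'' → Holds x'' (opOr k a b).2 ∧
      (x'' a.1 = 0 ∨ x'' b.1 = 0 → x'' (opOr k a b).1.1 = 0) ∧
      (x'' a.2 = 0 ∧ x'' b.2 = 0 → x'' (opOr k a b).1.2 = 0) := by
  obtain ⟨x', h1, h2⟩ := opAnd_complete k (a.2, a.1) (b.2, b.1) ha' hb' ha hb x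
  refine ⟨x', h1, fun x'' h => ?_⟩
  obtain ⟨h3, h4, h5⟩ := h2 x'' h
  exact ⟨h3, h5, h4⟩

/-! ### terms and formulas -/

/-- the point at which terms and formulas are evaluated -/
def pt (x : ℕ → ℝ) : ℕ → ℝ := fun u => x (2 * u)

lemma Agree.pt {k : ℕ} {x x' : ℕ → ℝ} (h : Agree k x x') : pt x' = pt x := funext fun u => h.even u

lemma run_term (t : Term) : ∀ (k : ℕ), ∃ (k' p : ℕ) (L' : List Block), k ≤ k' ∧ Low k' p ∧
    (∀ st L, run t.rpn (k, st, L) = (k', (p, p) :: st, L' ++ L)) ∧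
    (∀ x, Sat x L' → x p = t.eval (pt x)) ∧
    (∀ x, ∃ x', Agree k x x' ∧ ∀ x'', Agree k' x' x'' → Holds x'' L') := by
  induction t with
  | var v =>
    intro k
    exact ⟨k, 2 * v, [], le_rfl, low_even _ _, fun st L => rfl, fun x _ => rfl,
      fun x => ⟨x, Agree.refl _ _, fun x'' _ => Holds.nil _⟩⟩
  | const c =>
    intro k
    refine ⟨k + 9, g k, [bConst (g k) c], by omega, low_g (by omega), fun st L => rfl,
      fun x h => h.const (by simp), fun x => ?_⟩
    obtain ⟨x', h1, h2⟩ := exists_ext k x fun _ => (c : ℝ)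
    refine ⟨x', h1, fun x'' h => Holds.cons_const ?_ (Holds.nil _)⟩
    exact (h2 x'' h).2 0 (by norm_num)
  | add s t ihs iht =>
    intro k
    obtain ⟨k1, p1, L1, hk1, hp1, hr1, hs1, hc1⟩ := ihs k
    obtain ⟨k2, p2, L2, hk2, hp2, hr2, hs2, hc2⟩ := iht k1
    refine ⟨k2 + 9, g k2, (opAdd k2 (p1, p1) (p2, p2)).2 ++ (L2 ++ L1), by omega,
      low_g (by omega), fun st L => ?_, fun x h => ?_, fun x => ?_⟩
    · show run (s.rpn ++ t.rpn ++ [Token.add]) _ = _
      rw [run_append, run_append, hr1, hr2]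
      simp [run, Token.toSum, step, opStep, bin, opAdd]
    · have h1 := hs1 x (h.mono (by simp +contextual))
      have h2 := hs2 x (h.mono (by simp +contextual))
      have h3 : x (g k2) = x p1 + x p2 := h.add (by simp [opAdd])
      rw [h3, h1, h2]; rfl
    · obtain ⟨x1, a1, b1⟩ := hc1 x
      obtain ⟨x2, a2, b2⟩ := hc2 x1
      obtain ⟨x3, a3, b3⟩ := opAdd_complete k2 (p1, p1) (p2, p2) (hp1.mono hk2) hp2 x2
      refine ⟨x3, (a1.trans (a2.mono hk1)).trans (a3.mono (hk1.trans hk2)), fun x'' h => ?_⟩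
      have c2 : Agree k2 x2 x'' := a3.trans (h.mono (by omega))
      have c1 : Agree k1 x1 x'' := a2.trans (c2.mono hk2)
      exact (b3 x'' h).append ((b2 x'' c2).append (b1 x'' c1))
  | mul s t ihs iht =>
    intro k
    obtain ⟨k1, p1, L1, hk1, hp1, hr1, hs1, hc1⟩ := ihs k
    obtain ⟨k2, p2, L2, hk2, hp2, hr2, hs2, hc2⟩ := iht k1
    refine ⟨k2 + 9, g k2, (opMul k2 (p1, p1) (p2, p2)).2 ++ (L2 ++ L1), by omega,
      low_g (by omega), fun st L => ?_, fun x h => ?_, fun x => ?_⟩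
    · show run (s.rpn ++ t.rpn ++ [Token.mul]) _ = _
      rw [run_append, run_append, hr1, hr2]
      simp [run, Token.toSum, step, opStep, bin, opMul]
    · have h1 := hs1 x (h.mono (by simp +contextual))
      have h2 := hs2 x (h.mono (by simp +contextual))
      have h3 : x (g k2) = x p1 * x p2 := h.mul (by simp [opMul])
      rw [h3, h1, h2]; rfl
    · obtain ⟨x1, a1, b1⟩ := hc1 x
      obtain ⟨x2, a2, b2⟩ := hc2 x1
      obtain ⟨x3, a3, b3⟩ := opMul_complete k2 (p1, p1) (p2, p2) (hp1.mono hk2) hp2 x2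
      refine ⟨x3, (a1.trans (a2.mono hk1)).trans (a3.mono (hk1.trans hk2)), fun x'' h => ?_⟩
      have c2 : Agree k2 x2 x'' := a3.trans (h.mono (by omega))
      have c1 : Agree k1 x1 x'' := a2.trans (c2.mono hk2)
      exact (b3 x'' h).append ((b2 x'' c2).append (b1 x'' c1))

lemma run_formula (φ : Formula) : ∀ (k : ℕ), ∃ (k' : ℕ) (p : ℕ × ℕ) (L' : List Block),
    k ≤ k' ∧ Low k' p.1 ∧ Low k' p.2 ∧
    (∀ st L, run φ.rpn (k, st, L) = (k', p :: st, L' ++ L)) ∧
    (∀ x, Sat x L' → (x p.1 = 0 → φ.Holds (pt x)) ∧ (x p.2 = 0 → ¬ φ.Holds (pt x))) ∧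
    (∀ x, ∃ x', Agree k x x' ∧ ∀ x'', Agree k' x' x'' → Holds x'' L' ∧
      (φ.Holds (pt x'') → x'' p.1 = 0) ∧ (¬ φ.Holds (pt x'') → x'' p.2 = 0)) := by
  induction φ with
  | eq s t =>
    intro k
    obtain ⟨k1, p1, L1, hk1, hp1, hr1, hs1, hc1⟩ := run_term s k
    obtain ⟨k2, p2, L2, hk2, hp2, hr2, hs2, hc2⟩ := run_term t k1
    refine ⟨k2 + 9, (opEq k2 (p1, p1) (p2, p2)).1, (opEq k2 (p1, p1) (p2, p2)).2 ++ (L2 ++ L1),
      by omega, low_g (by omega), low_g (by omega), fun st L => ?_, fun x h => ?_, fun x => ?_⟩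
    · show run (s.rpn ++ t.rpn ++ [Token.eq]) _ = _
      rw [run_append, run_append, hr1, hr2]
      simp [run, Token.toSum, step, opStep, bin]
    · have h1 := hs1 x (h.mono (by simp +contextual))
      have h2 := hs2 x (h.mono (by simp +contextual))
      have h3 := opEq_sound k2 (p1, p1) (p2, p2) x (h.mono (by simp +contextual))
      simp only at h3
      rw [h1, h2] at h3
      exact h3
    · obtain ⟨x1, a1, b1⟩ := hc1 x
      obtain ⟨x2, a2, b2⟩ := hc2 x1
      obtain ⟨x3, a3, b3⟩ := opEq_complete k2 (p1, p1) (p2, p2) (hp1.mono hk2) hp2 x2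
      refine ⟨x3, (a1.trans (a2.mono hk1)).trans (a3.mono (hk1.trans hk2)), fun x'' h => ?_⟩
      have c2 : Agree k2 x2 x'' := a3.trans (h.mono (by omega))
      have c1 : Agree k1 x1 x'' := a2.trans (c2.mono hk2)
      obtain ⟨d1, d2, d3⟩ := b3 x'' h
      simp only at d2 d3
      have e1 := hs1 x'' (b1 x'' c1).sat
      have e2 := hs2 x'' (b2 x'' c2).sat
      rw [e1, e2] at d2 d3
      exact ⟨d1.append ((b2 x'' c2).append (b1 x'' c1)), d2, d3⟩
  | lt s t =>
    intro k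
    obtain ⟨k1, p1, L1, hk1, hp1, hr1, hs1, hc1⟩ := run_term s k
    obtain ⟨k2, p2, L2, hk2, hp2, hr2, hs2, hc2⟩ := run_term t k1
    refine ⟨k2 + 9, (opLt k2 (p1, p1) (p2, p2)).1, (opLt k2 (p1, p1) (p2, p2)).2 ++ (L2 ++ L1),
      by omega, low_g (by omega), low_g (by omega), fun st L => ?_, fun x h => ?_, fun x => ?_⟩
    · show run (s.rpn ++ t.rpn ++ [Token.lt]) _ = _
      rw [run_append, run_append, hr1, hr2]
      simp [run, Token.toSum, step, opStep, bin]
    · have h1 := hs1 x (h.mono (by simp +contextual))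
      have h2 := hs2 x (h.mono (by simp +contextual))
      have h3 := opLt_sound k2 (p1, p1) (p2, p2) x (h.mono (by simp +contextual))
      simp only at h3
      rw [h1, h2] at h3
      exact h3
    · obtain ⟨x1, a1, b1⟩ := hc1 x
      obtain ⟨x2, a2, b2⟩ := hc2 x1
      obtain ⟨x3, a3, b3⟩ := opLt_complete k2 (p1, p1) (p2, p2) (hp1.mono hk2) hp2 x2
      refine ⟨x3, (a1.trans (a2.mono hk1)).trans (a3.mono (hk1.trans hk2)), fun x'' h => ?_⟩
      have c2 : Agree k2 x2 x'' := a3.trans (h.mono (by omega))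
      have c1 : Agree k1 x1 x'' := a2.trans (c2.mono hk2)
      obtain ⟨d1, d2, d3⟩ := b3 x'' h
      simp only at d2 d3
      have e1 := hs1 x'' (b1 x'' c1).sat
      have e2 := hs2 x'' (b2 x'' c2).sat
      rw [e1, e2] at d2 d3
      exact ⟨d1.append ((b2 x'' c2).append (b1 x'' c1)), d2, d3⟩
  | not φ ih =>
    intro k
    obtain ⟨k1, p1, L1, hk1, hp1, hp1', hr1, hs1, hc1⟩ := ih k
    refine ⟨k1, (p1.2, p1.1), L1, hk1, hp1', hp1, fun st L => ?_, fun x h => ?_, fun x => ?_⟩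
    · show run (φ.rpn ++ [Token.not]) _ = _
      rw [run_append, hr1]
      simp [run, Token.toSum, step, opStep, neg]
    · obtain ⟨h1, h2⟩ := hs1 x h
      exact ⟨h2, fun h h' => h' (h1 h)⟩
    · obtain ⟨x1, a1, b1⟩ := hc1 x
      refine ⟨x1, a1, fun x'' h => ?_⟩
      obtain ⟨d1, d2, d3⟩ := b1 x'' h
      exact ⟨d1, d3, fun h => d2 (not_not.1 h)⟩
  | and φ ψ ihs iht =>
    intro k
    obtain ⟨k1, p1, L1, hk1, hp1, hp1', hr1, hs1, hc1⟩ := ihs k
    obtain ⟨k2, p2, L2, hk2, hp2, hp2', hr2, hs2, hc2⟩ := iht k1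
    refine ⟨k2 + 9, (opAnd k2 p1 p2).1, (opAnd k2 p1 p2).2 ++ (L2 ++ L1),
      by omega, low_g (by omega), low_g (by omega), fun st L => ?_, fun x h => ?_, fun x => ?_⟩
    · show run (φ.rpn ++ ψ.rpn ++ [Token.and]) _ = _
      rw [run_append, run_append, hr1, hr2]
      simp [run, Token.toSum, step, opStep, bin]
    · obtain ⟨h1, h1'⟩ := hs1 x (h.mono (by simp +contextual))
      obtain ⟨h2, h2'⟩ := hs2 x (h.mono (by simp +contextual))
      obtain ⟨h3, h3'⟩ := opAnd_sound k2 p1 p2 x (h.mono (by simp +contextual))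
      refine ⟨fun h => ⟨h1 (h3 h).1, h2 (h3 h).2⟩, fun h h' => ?_⟩
      rcases h3' h with h4 | h4
      · exact h1' h4 h'.1
      · exact h2' h4 h'.2
    · obtain ⟨x1, a1, b1⟩ := hc1 x
      obtain ⟨x2, a2, b2⟩ := hc2 x1
      obtain ⟨x3, a3, b3⟩ := opAnd_complete k2 p1 p2 (hp1.mono hk2) hp2 (hp1'.mono hk2) hp2' x2
      refine ⟨x3, (a1.trans (a2.mono hk1)).trans (a3.mono (hk1.trans hk2)), fun x'' h => ?_⟩
      have c2 : Agree k2 x2 x'' := a3.trans (h.mono (by omega))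
      have c1 : Agree k1 x1 x'' := a2.trans (c2.mono hk2)
      obtain ⟨d1, d2, d3⟩ := b3 x'' h
      obtain ⟨e1, e2, e3⟩ := b1 x'' c1
      obtain ⟨f1, f2, f3⟩ := b2 x'' c2
      refine ⟨d1.append (f1.append e1), fun h => d2 ⟨e2 h.1, f2 h.2⟩, fun h => d3 ?_⟩
      by_cases h4 : φ.Holds (pt x'')
      · right; exact f3 fun h5 => h ⟨h4, h5⟩
      · left; exact e3 h4
  | or φ ψ ihs iht =>
    intro k
    obtain ⟨k1, p1, L1, hk1, hp1, hp1', hr1, hs1, hc1⟩ := ihs k
    obtain ⟨k2, p2, L2, hk2, hp2, hp2', hr2, hs2, hc2⟩ := iht k1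
    refine ⟨k2 + 9, (opOr k2 p1 p2).1, (opOr k2 p1 p2).2 ++ (L2 ++ L1),
      by omega, low_g (by omega), low_g (by omega), fun st L => ?_, fun x h => ?_, fun x => ?_⟩
    · show run (φ.rpn ++ ψ.rpn ++ [Token.or]) _ = _
      rw [run_append, run_append, hr1, hr2]
      simp [run, Token.toSum, step, opStep, bin]
    · obtain ⟨h1, h1'⟩ := hs1 x (h.mono (by simp +contextual))
      obtain ⟨h2, h2'⟩ := hs2 x (h.mono (by simp +contextual))
      obtain ⟨h3, h3'⟩ := opOr_sound k2 p1 p2 x (h.mono (by simp +contextual))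
      refine ⟨fun h => ?_, fun h h' => ?_⟩
      · rcases h3 h with h4 | h4
        · exact Or.inl (h1 h4)
        · exact Or.inr (h2 h4)
      · rcases h' with h4 | h4
        · exact h1' (h3' h).1 h4
        · exact h2' (h3' h).2 h4
    · obtain ⟨x1, a1, b1⟩ := hc1 x
      obtain ⟨x2, a2, b2⟩ := hc2 x1
      obtain ⟨x3, a3, b3⟩ := opOr_complete k2 p1 p2 (hp1.mono hk2) hp2 (hp1'.mono hk2) hp2' x2
      refine ⟨x3, (a1.trans (a2.mono hk1)).trans (a3.mono (hk1.trans hk2)), fun x'' h => ?_⟩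
      have c2 : Agree k2 x2 x'' := a3.trans (h.mono (by omega))
      have c1 : Agree k1 x1 x'' := a2.trans (c2.mono hk2)
      obtain ⟨d1, d2, d3⟩ := b3 x'' h
      obtain ⟨e1, e2, e3⟩ := b1 x'' c1
      obtain ⟨f1, f2, f3⟩ := b2 x'' c2
      refine ⟨d1.append (f1.append e1), fun h => d2 ?_, fun h => d3 ?_⟩
      · rcases h with h4 | h4
        · exact Or.inl (e2 h4)
        · exact Or.inr (f2 h4)
      · exact ⟨e3 fun h4 => h (Or.inl h4), f3 fun h4 => h (Or.inr h4)⟩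

/-- the blocks of a formula given by its tokens -/
def sysOf (l : List Token) : List Block :=
  match (run l (0, [], [])).2.1 with
  | [] => []
  | p :: _ => bConst p.1 0 :: (run l (0, [], [])).2.2

/-- soundness -/
theorem etr_of_sat (φ : Formula) (x : ℕ → ℝ) (hx : Sat x (sysOf φ.rpn)) : φ ∈ ETR := by
  obtain ⟨k, p, L, -, -, -, hr, hs, hc⟩ := run_formula φ 0
  have e : sysOf φ.rpn = bConst p.1 0 :: L := by
    unfold sysOf
    rw [hr]
    simp
  rw [e] at hx
  refine ⟨pt x, (hs x (hx.mono (by simp +contextual))).1 ?_⟩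
  have := hx.const (a := p.1) (q := 0) (by simp)
  rw [this]; norm_num

/-- completeness -/
theorem holds_of_etr (φ : Formula) (h : φ ∈ ETR) : ∃ x, Holds x (sysOf φ.rpn) := by
  obtain ⟨k, p, L, -, -, -, hr, hs, hc⟩ := run_formula φ 0
  have e : sysOf φ.rpn = bConst p.1 0 :: L := by
    unfold sysOf
    rw [hr]
    simp
  rw [e]
  obtain ⟨y, hy⟩ := h
  obtain ⟨x', h1, h2⟩ := hc fun v => y (v / 2)
  obtain ⟨h3, h4, -⟩ := h2 x' (Agree.refl _ _)
  have h5 : pt x' = y := by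
    rw [h1.pt]
    funext u
    simp [pt]
  refine ⟨x', Holds.cons_const ?_ h3⟩
  rw [h4 (by rw [h5]; exact hy)]
  norm_num

end Pool.Agent.MinRank
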