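import Pool.Agent.MinRank.Defs
import Pool.Agent.Lib.PolyTime.Eq

/-!
# The encodings are injective
-/

set_option autoImplicit false

namespace Pool.Agent.MinRank

open Pool.Agent.PolyTime

instance : EncInj ℤ := ⟨fun a b h => by
  have h1 : (decide (a < 0), a.natAbs) = (decide (b < 0), b.natAbs) := EncInj.inj h
  rw [Prod.mk.injEq, decide_eq_decide] at h1
  omega⟩

instance : EncInj ℚ := ⟨fun a b h => by
  have h1 : (a.num, a.den) = (b.num, b.den) := EncInj.inj h
  rw [Prod.mk.injEq] at h1
  exact Rat.ext h1.1 h1.2⟩

lemma toSum_injective : Function.Injective Token.toSum := by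
  intro a b h
  cases a <;> cases b <;> simp_all [Token.toSum]

instance : EncInj Token := ⟨fun a b h => toSum_injective (EncInj.inj h)⟩

/-- reading of a reverse Polish form with a stack of terms and formulas -/
def readTok (st : List (Term ⊕ Formula)) (t : Token) : List (Term ⊕ Formula) :=
  match t, st with
  | .var v, st => Sum.inl (.var v) :: st
  | .const c, st => Sum.inl (.const c) :: st
  | .add, Sum.inl t :: Sum.inl s :: st => Sum.inl (.add s t) :: st
  | .mul, Sum.inl t :: Sum.inl s :: st => Sum.inl (.mul s t) :: st
  | .eq, Sum.inl t :: Sum.inl s :: st => Sum.inr (.eq s t) :: st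
  | .lt, Sum.inl t :: Sum.inl s :: st => Sum.inr (.lt s t) :: st
  | .not, Sum.inr φ :: st => Sum.inr (.not φ) :: st
  | .and, Sum.inr ψ :: Sum.inr φ :: st => Sum.inr (.and φ ψ) :: st
  | .or, Sum.inr ψ :: Sum.inr φ :: st => Sum.inr (.or φ ψ) :: st
  | _, st => st

lemma read_term (t : Term) : ∀ st, t.rpn.foldl readTok st = Sum.inl t :: st := by
  induction t with
  | var v => intro st; rfl
  | const c => intro st; rfl
  | add s t ihs iht => intro st; simp [Term.rpn, ihs, iht, readTok]
  | mul s t ihs iht => intro st; simp [Term.rpn, ihs, iht, readTok]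

lemma read_formula (φ : Formula) : ∀ st, φ.rpn.foldl readTok st = Sum.inr φ :: st := by
  induction φ with
  | eq s t => intro st; simp [Formula.rpn, read_term, readTok]
  | lt s t => intro st; simp [Formula.rpn, read_term, readTok]
  | not φ ih => intro st; simp [Formula.rpn, ih, readTok]
  | and φ ψ ihs iht => intro st; simp [Formula.rpn, ihs, iht, readTok]
  | or φ ψ ihs iht => intro st; simp [Formula.rpn, ihs, iht, readTok]

/-- different formulas have different codes -/
instance : EncInj Formula := ⟨fun a b h => by
  have h1 : a.rpn = b.rpn := EncInj.inj h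
  have h2 := read_formula a []
  rw [h1, read_formula b []] at h2
  simpa using h2.symm⟩

/-- different matrices have different codes -/
instance : EncInj Mat := ⟨fun a b h => by
  have h1 : a.rows = b.rows := EncInj.inj h
  obtain ⟨n, e⟩ := a
  obtain ⟨m, f⟩ := b
  have h2 := congrArg List.length h1
  simp only [Mat.rows, List.length_ofFn] at h2
  subst h2
  have h3 : (fun i => List.ofFn fun j => e i j) = fun i => List.ofFn fun j => f i j :=
    List.ofFn_injective h1
  have h4 : e = f := by
    funext i
    exact List.ofFn_injective (congrFun h3 i)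
  rw [h4]⟩

end Pool.Agent.MinRank
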